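import Mathlib

/-! Project SQ, third stage: an ideal of `F` which becomes principal in `H` is principal, if all
units of norm one of the quadratic extension `H/F` are of the form `v / c(v)`. -/

set_option autoImplicit false

open Module NumberField

namespace Pool.Agent.L7h36.SQ

variable {F H : Type} [Field F] [NumberField F] [Field H] [NumberField H] [Algebra F H]

/-- the automorphisms of a quadratic extension -/
theorem aut_two (hd : finrank F H = 2) (c : H ≃ₐ[F] H) (hc : c ≠ 1) :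
    (∀ x, c (c x) = x) ∧ ∀ x : H, c x = x → ∃ y : F, algebraMap F H y = x := by
  classical
  have hfin : FiniteDimensional F H := FiniteDimensional.of_finrank_pos (by omega)
  have hcard : Fintype.card (H ≃ₐ[F] H) ≤ 2 := by
    rw [← hd]
    exact AlgEquiv.card_le
  have hcard2 : Fintype.card (H ≃ₐ[F] H) = 2 := by
    refine le_antisymm hcard ?_
    have : 1 < Fintype.card (H ≃ₐ[F] H) := Fintype.one_lt_card_iff.2 ⟨c, 1, hc⟩
    omega
  have hgal : IsGalois F H := by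
    refine IsGalois.of_card_aut_eq_finrank F H ?_
    rw [Nat.card_eq_fintype_card, hcard2, hd]
  have hall : ∀ f : H ≃ₐ[F] H, f = 1 ∨ f = c := by
    intro f
    by_contra h
    push Not at h
    have h3 : ({1, c, f} : Finset (H ≃ₐ[F] H)).card = 3 := by
      rw [Finset.card_eq_three]
      exact ⟨1, c, f, hc.symm, h.1.symm, h.2.symm, rfl⟩
    have := Finset.card_le_univ ({1, c, f} : Finset (H ≃ₐ[F] H))
    omega
  constructor
  · intro x
    have h2 : c * c = 1 := by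
      rcases hall (c * c) with h | h
      · exact h
      · exact absurd (mul_left_cancel (h.trans (mul_one c).symm)) hc
    exact DFunLike.congr_fun h2 x
  · intro x hx
    refine (IsGalois.mem_range_algebraMap_iff_fixed x).2 fun f => ?_
    rcases hall f with rfl | rfl
    · rfl
    · exact hx

/-- An element `x` of `H` such that `x / c x` is a unit is the product of an element of `F` and a
unit. -/
theorem split_unit (hd : finrank F H = 2) (c : H ≃ₐ[F] H) (hc : c ≠ 1)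
    (hu : ∀ u : (𝓞 H)ˣ, ((u : 𝓞 H) : H) * c ((u : 𝓞 H) : H) = 1 →
      ∃ v : (𝓞 H)ˣ, ((u : 𝓞 H) : H) = ((v : 𝓞 H) : H) / c ((v : 𝓞 H) : H))
    (x : H) (hx : x ≠ 0) (u : (𝓞 H)ˣ) (hxu : x = c x * ((u : 𝓞 H) : H)) :
    ∃ (y : F) (v : (𝓞 H)ˣ), x = algebraMap F H y * ((v : 𝓞 H) : H) := by
  obtain ⟨h2, hfix⟩ := aut_two hd c hc
  have hcx : c x ≠ 0 := fun h => hx (by simpa using h)
  have h1 : c x = x * c ((u : 𝓞 H) : H) := by
    have := congrArg c hxu
    rwa [map_mul, h2] at this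
  have hN : ((u : 𝓞 H) : H) * c ((u : 𝓞 H) : H) = 1 := by
    have h3 : x * (((u : 𝓞 H) : H) * c ((u : 𝓞 H) : H)) = x * 1 := by
      calc x * (((u : 𝓞 H) : H) * c ((u : 𝓞 H) : H))
          = (x * c ((u : 𝓞 H) : H)) * ((u : 𝓞 H) : H) := by ring
        _ = c x * ((u : 𝓞 H) : H) := by rw [← h1]
        _ = x * 1 := by rw [← hxu, mul_one]
    exact mul_left_cancel₀ hx h3
  obtain ⟨v, hv⟩ := hu u hN
  have hv0 : ((v : 𝓞 H) : H) ≠ 0 := by
    intro h
    have : (v : 𝓞 H) = 0 := by exact_mod_cast h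
    exact v.ne_zero this
  have hcv0 : c ((v : 𝓞 H) : H) ≠ 0 := fun h => hv0 (by simpa using h)
  obtain ⟨y, hy⟩ := hfix (x / ((v : 𝓞 H) : H)) (by
    rw [map_div₀, div_eq_div_iff hcv0 hv0]
    rw [hv] at hxu
    field_simp at hxu
    rw [← hxu])
  refine ⟨y, v, ?_⟩
  rw [hy, div_mul_cancel₀ _ hv0]

theorem inj (hd : finrank F H = 2) (c : H ≃ₐ[F] H) (hc : c ≠ 1)
    (hu : ∀ u : (𝓞 H)ˣ, ((u : 𝓞 H) : H) * c ((u : 𝓞 H) : H) = 1 →
      ∃ v : (𝓞 H)ˣ, ((u : 𝓞 H) : H) = ((v : 𝓞 H) : H) / c ((v : 𝓞 H) : H))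
    (a : Ideal (𝓞 F)) (h : (a.map (algebraMap (𝓞 F) (𝓞 H))).IsPrincipal) : a.IsPrincipal := by
  obtain ⟨x, hx⟩ := h
  have hx : a.map (algebraMap (𝓞 F) (𝓞 H)) = Ideal.span {x} := hx
  by_cases hx0 : x = 0
  · have : a = ⊥ := by
      rw [← Ideal.comap_map_eq_self_of_faithfullyFlat (B := 𝓞 H) a, hx, hx0]
      rw [Ideal.span_singleton_eq_bot.2 rfl]
      exact Ideal.comap_bot_of_injective _ (FaithfulSMul.algebraMap_injective (𝓞 F) (𝓞 H))
    rw [this]
    exact bot_isPrincipal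
  -- the automorphism of the ring of integers
  let c' : 𝓞 H ≃+* 𝓞 H := RingOfIntegers.mapRingEquiv c.toRingEquiv
  have hc' : ∀ z : 𝓞 H, ((c' z : 𝓞 H) : H) = c (z : H) := fun z => rfl
  have hcomp : ∀ t : 𝓞 F, c' (algebraMap (𝓞 F) (𝓞 H) t) = algebraMap (𝓞 F) (𝓞 H) t := by
    intro t
    apply RingOfIntegers.ext
    rw [hc']
    have e : ((algebraMap (𝓞 F) (𝓞 H) t : 𝓞 H) : H) = algebraMap F H (t : F) := rfl
    rw [e, AlgEquiv.commutes]
  have hmap : (a.map (algebraMap (𝓞 F) (𝓞 H))).map (c' : 𝓞 H →+* 𝓞 H) =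
      a.map (algebraMap (𝓞 F) (𝓞 H)) := by
    rw [Ideal.map_map]
    congr 1
    ext t
    exact congrArg _ (hcomp t)
  rw [hx, Ideal.map_span, Set.image_singleton, Ideal.span_singleton_eq_span_singleton] at hmap
  obtain ⟨u, hu'⟩ := hmap
  have hxu : (x : H) = c (x : H) * ((u : 𝓞 H) : H) := by
    rw [← hc', ← map_mul]
    exact congrArg (fun z : 𝓞 H => (z : H)) hu'.symm
  obtain ⟨y, v, hyv⟩ := split_unit hd c hc hu (x : H) (by exact_mod_cast hx0) u hxu
  -- `y` is integral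
  have hyi : IsIntegral ℤ y := by
    have h1 : algebraMap F H y = (((x * (v⁻¹ : (𝓞 H)ˣ) : 𝓞 H)) : H) := by
      have hvv : ((v : 𝓞 H) : H) * (((v⁻¹ : (𝓞 H)ˣ) : 𝓞 H) : H) = 1 := by
        rw [← map_mul, Units.mul_inv, map_one]
      have e3 : (((x * (v⁻¹ : (𝓞 H)ˣ) : 𝓞 H)) : H) = (x : H) * (((v⁻¹ : (𝓞 H)ˣ) : 𝓞 H) : H) := rfl
      rw [e3, hyv, mul_assoc, hvv, mul_one]
    have h2 : IsIntegral ℤ (algebraMap F H y) := by
      rw [h1]
      exact RingOfIntegers.isIntegral_coe _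
    exact (isIntegral_algebraMap_iff (FaithfulSMul.algebraMap_injective F H)).1 h2
  let t : 𝓞 F := ⟨y, hyi⟩
  have hxt : x = algebraMap (𝓞 F) (𝓞 H) t * v := by
    apply RingOfIntegers.ext
    have e3 : ((algebraMap (𝓞 F) (𝓞 H) t * v : 𝓞 H) : H) = algebraMap F H y * ((v : 𝓞 H) : H) :=
      rfl
    rw [e3]
    exact hyv
  refine ⟨t, ?_⟩
  have hinj := Ideal.map_injective_of_faithfullyFlat (A := 𝓞 F) (B := 𝓞 H)
  apply hinj
  rw [hx]
  show _ = Ideal.map _ (Ideal.span {t})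
  rw [Ideal.map_span, Set.image_singleton, Ideal.span_singleton_eq_span_singleton]
  exact Associated.symm ⟨v, hxt.symm⟩

end Pool.Agent.L7h36.SQ
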